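import Pool.Agent.Lib.MP_df1243_an.Ins.Cap

/-!
# MP_df1243_an: the modulus of the curves joining `E` to the rest of the axis is `0` or `∞`

The definitions (plane, axis, rectifiable curves, line integral along the arc length
parametrisation, 2-modulus, curves joining two sets) are in
`Pool/Agent/Lib/MP_df1243_an/Ins/Defs.lean`.
-/

set_option autoImplicit false
open Set Pool.Agent.GoncharIns

namespace Pool.Agent.Results.MP_df1243_an.ZeroInfinity

open Classical in
/-- Let `E` be a Borel subset of the real axis contained in the open disc of radius `R` about `0`.
If the family of the curves joining `E` to the circle of radius `R` has modulus zero, then the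
family of the curves joining `E` to the rest of the axis has modulus zero, and otherwise the
family of the curves joining `E` to the rest of the axis has infinite modulus. -/
theorem result (E : Set Plane) (R : ℝ) (hEm : MeasurableSet E)
    (hE : E ⊆ axis ∩ Metric.ball 0 R) :
    modulus (Joining E (axis \ E)) =
      if modulus (Joining E (Metric.sphere 0 R)) = 0 then 0 else ⊤ := by
  have h := gonchar E R hEm hE
  by_cases h0 : modulus (Joining E (Metric.sphere 0 R)) = 0
  · rw [if_pos h0]
    exact h.2 h0
  · rw [if_neg h0]
    exact h.1 (pos_iff_ne_zero.2 h0)

end Pool.Agent.Results.MP_df1243_an.ZeroInfinity
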